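import Pool.Agent.Y866.PP.Linnik
import Pool.Agent.Y866.PP.Prog2
import Pool.Agent.Y677.RSZ.Top

/-!
# Linnik's theorem for progressions of primes, with an absolute exponent

The exponent `L` does not depend on the length `k` of the progressions. The lower bound of Linnik's type for the
number of the primes in a class: elementary proof of helper69's project MH (starting files) in the form of helper835
(team), with Siegel's theorem for the size of the exceptional modulus. The progressions:
Szemerédi's theorem relative to sifted sets in classes to large moduli (`Pool.Agent.Y677.RSZ.eng_all`, of the team).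
From Mathlib: `Real.log`: natural logarithm; `[MOD q]`: congruence modulo `q`.
-/

set_option autoImplicit false

namespace Pool.Agent.Results.MP_42948a_nt.LinnikProgressions

/-- There is an absolute constant `L` with the following property. For all `k` and `N` there are `B` and `Q₀`, and for
every `Q ≥ Q₀` there is one `q₁ > (log Q) ^ N`, such that for EVERY modulus `q ≤ Q` not divisible by `q₁` EVERY
reduced class `b` modulo `q` contains a progression of `k` primes `p, p + q r, ..., p + (k - 1) q r`, all at most
`Q ^ L`, with `1 ≤ r ≤ (log Q) ^ B`. -/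
theorem result : ∃ L : ℕ, ∀ k N : ℕ, ∃ B Q₀ : ℕ, ∀ Q : ℕ, Q₀ ≤ Q → ∃ q₁ : ℕ,
    2 ≤ q₁ ∧ Real.log Q ^ N < q₁ ∧
    ∀ q b : ℕ, 1 ≤ q → q ≤ Q → ¬ q₁ ∣ q → b.Coprime q →
      ∃ p r : ℕ, 1 ≤ r ∧ (r : ℝ) ≤ Real.log Q ^ B ∧ ∀ j < k, (p + j * (q * r)).Prime ∧
        p + j * (q * r) ≡ b [MOD q] ∧ p + j * (q * r) ≤ Q ^ L :=
  Pool.Agent.Y866.PP.linnik (Pool.Agent.Y866.PP.prog_of_eng Pool.Agent.Y677.RSZ.eng_all)

end Pool.Agent.Results.MP_42948a_nt.LinnikProgressions
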