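import Pool.Agent.Y866.LM.Heavy3
import Pool.Agent.Y677.RSZ.Top

/-!
# Progressions of primes below `m ^ (1 + ε)` in the classes of every modulus `m`

The estimates for the Fourier coefficients of the primes and for the variance of Selberg's upper bound
over the residue classes (starting files, `Pool.Agent.TH847.LM`), and Szemerédi's theorem relative to
sifted sets (`Pool.Agent.Y677.RSZ.eng_all`, of the team), applied in every residue class.
From Mathlib: `Nat.totient`: Euler's function; `[MOD m]`: congruence modulo `m`.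
-/

set_option autoImplicit false

namespace Pool.Agent.Results.MP_42948a_nt.ProgressionsEveryModulus

open Finset

/-- For every `k` and every `ε > 0` there are `κ > 0` and `B` such that for every large `m`, every interval
`(x, x + H]` with `m ^ (1 - κ) ≤ H ≤ m` contains at least `(1 / 4 - ε) (φ(m) / m) H` integers `c` prime to
`m` such that the class `c` modulo `m` contains a progression of `k` primes
`p, p + m r, ..., p + (k - 1) m r`, all of them less than `m ^ (1 + ε)`, with `1 ≤ r ≤ (log m) ^ B`. -/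
theorem result (k : ℕ) (ε : ℝ) (hε : 0 < ε) : ∃ κ : ℝ, 0 < κ ∧ ∃ B m₀ : ℕ, ∀ m : ℕ, m₀ ≤ m →
    ∀ x H : ℕ, (m : ℝ) ^ (1 - κ) ≤ H → H ≤ m →
      (1 / 4 - ε) * ((Nat.totient m : ℝ) / m * H) ≤
        ({c : ℕ | x < c ∧ c ≤ x + H ∧ c.Coprime m ∧ ∃ p r : ℕ, 1 ≤ r ∧ (r : ℝ) ≤ Real.log m ^ B ∧
          ∀ j < k, (p + j * (m * r)).Prime ∧ p + j * (m * r) ≡ c [MOD m] ∧
            ((p + j * (m * r) : ℕ) : ℝ) < (m : ℝ) ^ (1 + ε)}.ncard : ℝ) := by
  classical
  obtain ⟨κ, hκ, B, hB⟩ := Pool.Agent.Y866.LM.power_intH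
    (Pool.Agent.Y866.PP.prog_of_eng Pool.Agent.Y677.RSZ.eng_all) k ε hε
  obtain ⟨m₀, hm₀⟩ := Filter.eventually_atTop.1 hB
  refine ⟨κ, hκ, B, m₀, fun m hm x H hH hHm => ?_⟩
  refine (hm₀ m hm x H hH hHm).trans (le_of_eq ?_)
  rw [← Set.ncard_coe_finset]
  congr 2
  ext c
  rw [mem_coe, mem_filter, mem_Ioc, Set.mem_ofPred_eq, and_assoc]
  rfl

end Pool.Agent.Results.MP_42948a_nt.ProgressionsEveryModulus
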