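import Pool.Agent.Y866.PP.Fixed
import Pool.Agent.Y866.PP.Prog2
import Pool.Agent.Y677.RSZ.Top

/-!
# Progressions of primes below `d ^ (9/5 + ε)` in the classes of given residues modulo almost all smooth `d`

The starting result `MP_00e23e_nt.MaxInsideFiveNinths` (primes in the classes of given residues for smooth moduli up
to `x ^ θ`, `θ < 5/9`) and Szemerédi's theorem relative to sifted sets (`Pool.Agent.Y677.RSZ.eng_all`, of the
team), applied in every residue class.
From Mathlib: `Real.log`: natural logarithm; `[MOD d]`: congruence modulo `d`.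
-/

set_option autoImplicit false

namespace Pool.Agent.Results.MP_42948a_nt.ProgressionsFixedResidues

open Finset

/-- For every `ε > 0` there is `η > 0` such that for all `k`, `U` there are `B` and `C` such that for every `D ≥ 3`
there is a set `Z` of at most `C D / (log D) ^ U` moduli with the following property. For every set `A` of at most
`D ^ η` positive integers `a ≤ D ^ (9/5)` there are subsets `X_d` of `A`, with at most `C (log D) ^ B` elements on
average over `D < d ≤ 2 D`, such that for every squarefree `d ∈ (D, 2 D]` outside `Z` all of whose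
prime factors are at most `D ^ η`, and EVERY `a ∈ A` prime to `d` outside `X_d`, the class `a` modulo `d` contains a
progression of `k` primes `p, p + d r, ..., p + (k - 1) d r`, all less than `d ^ (9/5 + ε)`, with
`1 ≤ r ≤ (log D) ^ B`. -/
theorem result (ε : ℝ) (hε : 0 < ε) : ∃ η : ℝ, 0 < η ∧ ∀ k U : ℕ,
    ∃ (B : ℕ) (C : ℝ), ∀ D : ℕ, 3 ≤ D → ∃ Z : Finset ℕ, (Z.card : ℝ) ≤ C * (D / Real.log D ^ U) ∧
      ∀ A : Finset ℕ, (∀ a ∈ A, 1 ≤ a ∧ (a : ℝ) ≤ (D : ℝ) ^ (9 / 5 : ℝ)) →
      (A.card : ℝ) ≤ (D : ℝ) ^ η → ∃ X : ℕ → Finset ℕ, (∀ d, X d ⊆ A) ∧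
        ∑ d ∈ Ioc D (2 * D), ((X d).card : ℝ) ≤ C * (D * Real.log D ^ B) ∧
        ∀ d : ℕ, D < d → d ≤ 2 * D → Squarefree d → (∀ p : ℕ, p.Prime → p ∣ d → (p : ℝ) ≤ (D : ℝ) ^ η) →
          d ∉ Z → ∀ a ∈ A, a ∉ X d → a.Coprime d →
          ∃ p r : ℕ, 1 ≤ r ∧ (r : ℝ) ≤ Real.log D ^ B ∧ ∀ j < k, (p + j * (d * r)).Prime ∧
            p + j * (d * r) ≡ a [MOD d] ∧ ((p + j * (d * r) : ℕ) : ℝ) < (d : ℝ) ^ (9 / 5 + ε) :=
  Pool.Agent.Y866.PP.fixed_residues (Pool.Agent.Y866.PP.prog_of_eng Pool.Agent.Y677.RSZ.eng_all) ε hε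

end Pool.Agent.Results.MP_42948a_nt.ProgressionsFixedResidues
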