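import Pool.Agent.Y866.PP.ShortRes
import Pool.Agent.Y677.RSZ.Top

/-!
# Progressions of primes in the classes of almost all residues of a short interval, level `1 - ε`

The starting result `MP_00e23e_nt.ShortIntervalResidues` and Szemerédi's theorem relative to sifted sets
(`Pool.Agent.Y677.RSZ.eng_all`, of the team), applied in every residue class.
From Mathlib: `Nat.totient`: Euler's function; `[MOD d]`: congruence modulo `d`.
-/

set_option autoImplicit false

namespace Pool.Agent.Results.MP_42948a_nt.ProgressionsShortResidues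

open Finset

/-- The class `a` modulo `d` contains a progression of `k` primes `p, p + d r, ..., p + (k - 1) d r`, all
of them at most `x`, with `1 ≤ r ≤ (log x) ^ B`. -/
def HasProgression (k B x d a : ℕ) : Prop := ∃ p r : ℕ, 1 ≤ r ∧ (r : ℝ) ≤ Real.log x ^ B ∧
  ∀ j < k, (p + j * (d * r)).Prime ∧ p + j * (d * r) ≡ a [MOD d] ∧ p + j * (d * r) ≤ x

open Classical in
/-- For all `k`, `U` and `ε > 0` there are `B` and `C` such that for all `x ≥ 3` and all intervals
`(a₀, a₀ + A]` inside `[1, x]`: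

* if `A ≥ x ^ (1/3) (log x) ^ B`, then the sum of `1 / φ(d)` over the pairs `(a, d)`, `a₀ < a ≤ a₀ + A`,
  `d ≤ x ^ (1 - ε)`, `(a, d) = 1`, for which the class `a` modulo `d` contains NO progression of `k` primes up to
  `x` with a difference at most `d (log x) ^ B`, is at most `C A / (log x) ^ U`;
* if `√x ≤ D ≤ x ^ (1 - ε)` and only `A ≥ (x / D) (log x) ^ B`, then there are at most `C A D / (log x) ^ U`
  such pairs with `D < d ≤ 2 D`. -/
theorem result (k U : ℕ) (ε : ℝ) (hε : 0 < ε) : ∃ (B : ℕ) (C : ℝ),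
    ∀ x : ℕ, 3 ≤ x → ∀ A a₀ : ℕ, a₀ + A ≤ x →
    ((x : ℝ) ^ (1 / 3 : ℝ) * Real.log x ^ B ≤ A →
      ∑ a ∈ Ioc a₀ (a₀ + A), ∑ d ∈ (Icc 1 ⌊(x : ℝ) ^ (1 - ε)⌋₊).filter
        (fun d => a.Coprime d ∧ ¬ HasProgression k B x d a), 1 / (Nat.totient d : ℝ) ≤
          C * (A / Real.log x ^ U)) ∧
    (∀ D : ℕ, (x : ℝ) ^ (1 / 2 : ℝ) ≤ D → (D : ℝ) ≤ (x : ℝ) ^ (1 - ε) →
      x * Real.log x ^ B ≤ (A : ℝ) * D →
      ((∑ a ∈ Ioc a₀ (a₀ + A), ((Ioc D (2 * D)).filter
        (fun d => a.Coprime d ∧ ¬ HasProgression k B x d a)).card : ℕ) : ℝ) ≤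
          C * (A * D / Real.log x ^ U)) := by
  obtain ⟨B, C, h⟩ := Pool.Agent.Y866.PP.short_residues
    (Pool.Agent.Y866.PP.prog_of_eng Pool.Agent.Y677.RSZ.eng_all) k ε hε U
  refine ⟨B, C, fun x hx A a₀ hA => ?_⟩
  obtain ⟨h1, h2⟩ := h x hx A a₀ hA
  refine ⟨fun hA2 => le_trans (le_of_eq ?_) (h1 hA2), fun D hD1 hD2 hD3 =>
    le_trans (le_of_eq ?_) (h2 D hD1 hD2 hD3)⟩
  · refine sum_congr rfl fun a _ => sum_congr ?_ fun _ _ => rfl
    ext d
    rw [mem_filter, mem_filter]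
    rfl
  · congr 1
    refine sum_congr rfl fun a _ => ?_
    congr 1
    ext d
    rw [mem_filter, mem_filter]
    rfl

end Pool.Agent.Results.MP_42948a_nt.ProgressionsShortResidues
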